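import Pool.Agent.TBP.StmtsA

set_option autoImplicit false

/-! Row VDB of the squad TBP (helper91): the densities `VD`, `VV` and the factors `hh`. -/

namespace Pool.Agent.TBP.H91

open Finset

theorem fac_bounds {θ : ℝ} {J j p : ℕ} (h0 : 0 < θ) (h1 : θ < 1) (hj : j < J)
    (hp : p ∈ pb J j) : 0 < 1 - (kp θ j : ℝ) / p ∧ 1 - (kp θ j : ℝ) / p ≤ 1 := by
  have hk : kp θ j ≤ 2 ^ j := by
    unfold kp
    have h2 : (2 : ℝ) ^ (θ * j) ≤ (2 : ℝ) ^ (j : ℝ) := by
      apply Real.rpow_le_rpow_of_exponent_le (by norm_num)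
      have : (0 : ℝ) ≤ j := Nat.cast_nonneg j
      nlinarith
    rw [Real.rpow_natCast] at h2
    have h3 : ⌊(2 : ℝ) ^ (θ * j)⌋₊ ≤ ⌊((2 ^ j : ℕ) : ℝ)⌋₊ := by
      apply Nat.floor_le_floor
      push_cast
      exact h2
    rwa [Nat.floor_natCast] at h3
  have hlt : 2 ^ j < 2 ^ J := Nat.pow_lt_pow_right (by norm_num) hj
  have hpl : 2 ^ J < p := by
    rw [pb, mem_filter, mem_Ioc] at hp
    have h4 : 2 ^ J ≤ lw J (j + 1) := by
      unfold lw
      apply Nat.pow_le_pow_right (by norm_num)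
      exact Nat.le_mul_of_pos_right _ (by positivity)
    omega
  have hkp : kp θ j < p := by omega
  have hp0 : (0 : ℝ) < p := by
    have : 0 < p := by omega
    exact_mod_cast this
  have hkp' : (kp θ j : ℝ) < p := by exact_mod_cast hkp
  constructor
  · have : (kp θ j : ℝ) / p < 1 := (div_lt_one hp0).2 hkp'
    linarith
  · have : 0 ≤ (kp θ j : ℝ) / p := by positivity
    linarith

theorem vdb : VdbStmt := by
  intro θ J h0 h1
  have hf : ∀ j ∈ range J, ∀ p ∈ pb J j,
      0 < 1 - (kp θ j : ℝ) / p ∧ 1 - (kp θ j : ℝ) / p ≤ 1 :=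
    fun j hj p hp => fac_bounds h0 h1 (mem_range.1 hj) hp
  refine ⟨?_, ?_, ?_, ?_⟩
  · exact prod_pos fun j hj => prod_pos fun p hp => (hf j hj p hp).1
  · refine prod_le_one (fun j hj => prod_nonneg fun p hp => (hf j hj p hp).1.le) fun j hj => ?_
    exact prod_le_one (fun p hp => (hf j hj p hp).1.le) fun p hp => (hf j hj p hp).2
  · intro p
    unfold hh
    refine prod_induction _ (fun x : ℝ => 1 ≤ x)
      (fun a b ha hb => one_le_mul_of_one_le_of_one_le ha hb) le_rfl fun j hj => ?_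
    rw [mem_filter] at hj
    have h2 := hf j hj.1 p hj.2
    exact (one_le_inv₀ h2.1).2 h2.2
  · intro d hd
    have e1 : VV θ J = VD θ J d *
        ∏ j ∈ range J, ∏ p ∈ (pb J j).filter (fun p => p ∣ d), (1 - (kp θ j : ℝ) / p) := by
      unfold VV VD
      rw [← prod_mul_distrib]
      refine prod_congr rfl fun j _ => ?_
      rw [mul_comm]
      exact (prod_filter_mul_prod_filter_not (pb J j) (fun p => p ∣ d) _).symm
    have e2 : ∏ p ∈ d.primeFactors, hh θ J p =
        ∏ j ∈ range J, ∏ p ∈ (pb J j).filter (fun p => p ∣ d), (1 - (kp θ j : ℝ) / p)⁻¹ := by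
      unfold hh
      refine prod_comm' fun p j => ?_
      constructor
      · rintro ⟨h2, h3⟩
        rw [mem_filter] at h3
        exact ⟨mem_filter.2 ⟨h3.2, Nat.dvd_of_mem_primeFactors h2⟩, h3.1⟩
      · rintro ⟨h2, h3⟩
        rw [mem_filter] at h2
        refine ⟨?_, mem_filter.2 ⟨h3, h2.1⟩⟩
        have h4 := h2.1
        rw [pb, mem_filter] at h4
        exact Nat.mem_primeFactors.2 ⟨h4.2, h2.2, by omega⟩
    have e3 : (∏ j ∈ range J, ∏ p ∈ (pb J j).filter (fun p => p ∣ d), (1 - (kp θ j : ℝ) / p)) *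
        (∏ j ∈ range J, ∏ p ∈ (pb J j).filter (fun p => p ∣ d), (1 - (kp θ j : ℝ) / p)⁻¹) = 1 := by
      rw [← prod_mul_distrib]
      refine prod_eq_one fun j hj => ?_
      rw [← prod_mul_distrib]
      refine prod_eq_one fun p hp => ?_
      exact mul_inv_cancel₀ (hf j hj p (mem_filter.1 hp).1).1.ne'
    rw [e1, e2, mul_assoc, e3, mul_one]

end Pool.Agent.TBP.H91
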